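import Pool.Agent.helper51.PC.Spec

/-!
Row pc:FGI: the ring of invariants is finitely generated.
-/

set_option autoImplicit false

namespace Pool.Agent.PC

open MvPolynomial

universe u

theorem FGI_mem {k : Type u} [Field k] {n d : ℕ} (f : AA k n) : f ∈ RR k n d ↔ sg k n d f = f :=
  Iff.rfl

/-- the polynomial with the roots `σ ^ i f` -/
noncomputable def FGI_q {k : Type u} [Field k] (n d p : ℕ) (f : AA k n) : Polynomial (AA k n) :=
  ∏ i ∈ Finset.range p, (Polynomial.X - Polynomial.C ((sg k n d)^[i] f))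

theorem FGI_map {k : Type u} [Field k] {n d p : ℕ} (h : ∀ f : AA k n, (sg k n d)^[p] f = f)
    (f : AA k n) :
    (FGI_q n d p f).map (sg k n d : AA k n →+* AA k n) = FGI_q n d p f := by
  unfold FGI_q
  rw [Polynomial.map_prod]
  have h1 : ∀ i, (Polynomial.X - Polynomial.C ((sg k n d)^[i] f)).map
      (sg k n d : AA k n →+* AA k n) =
      Polynomial.X - Polynomial.C ((sg k n d)^[i + 1] f) := by
    intro i
    rw [Polynomial.map_sub, Polynomial.map_X, Polynomial.map_C, Function.iterate_succ_apply']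
    rfl
  simp only [h1]
  have h2 := Finset.prod_range_succ (fun i => Polynomial.X - Polynomial.C ((sg k n d)^[i] f)) p
  have h3 := Finset.prod_range_succ' (fun i => Polynomial.X - Polynomial.C ((sg k n d)^[i] f)) p
  rw [h2] at h3
  rw [h f] at h3
  have h4 : (Polynomial.X - Polynomial.C ((sg k n d)^[0] f)) =
      (Polynomial.X - Polynomial.C f : Polynomial (AA k n)) := rfl
  rw [h4] at h3
  exact (mul_right_cancel₀ (Polynomial.X_sub_C_ne_zero f) h3).symm

theorem FGI_int {k : Type u} [Field k] {n d p : ℕ} (hp : 0 < p)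
    (h : ∀ f : AA k n, (sg k n d)^[p] f = f) (f : AA k n) : IsIntegral (RR k n d) f := by
  have hc : ∀ i, (FGI_q n d p f).coeff i ∈ RR k n d := by
    intro i
    rw [FGI_mem]
    have h1 := congrArg (fun q => Polynomial.coeff q i) (FGI_map h f)
    simp only [Polynomial.coeff_map] at h1
    exact h1
  have hm : (FGI_q n d p f).Monic := by
    unfold FGI_q
    exact Polynomial.monic_prod_of_monic _ _ fun i _ => Polynomial.monic_X_sub_C _
  have hl : FGI_q n d p f ∈ Polynomial.lifts (algebraMap (RR k n d) (AA k n)) := by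
    rw [Polynomial.lifts_iff_coeff_lifts]
    intro i
    exact ⟨⟨_, hc i⟩, rfl⟩
  obtain ⟨q, hq, _, hqm⟩ := Polynomial.lifts_and_degree_eq_and_monic hl hm
  refine ⟨q, hqm, ?_⟩
  rw [← Polynomial.eval_map, hq]
  unfold FGI_q
  rw [Polynomial.eval_prod]
  apply Finset.prod_eq_zero (Finset.mem_range.2 hp)
  simp

theorem FGI (hSGK : SGK_stmt.{u}) : FGI_stmt.{u} := by
  intro k _ n d p hn hch
  obtain ⟨h1, _⟩ := hSGK k n d p hn hch
  have hint : Algebra.IsIntegral (RR k n d) (AA k n) := ⟨FGI_int hn.1.pos h1⟩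
  refine ⟨?_, hint⟩
  have hft : Algebra.FiniteType (RR k n d) (AA k n) :=
    Algebra.FiniteType.of_restrictScalars_finiteType k (RR k n d) (AA k n)
  have hfin : Module.Finite (RR k n d) (AA k n) := Algebra.IsIntegral.finite
  refine ⟨fg_of_fg_of_fg k (RR k n d) (AA k n) Algebra.FiniteType.out hfin.fg_top ?_⟩
  exact Subtype.val_injective

end Pool.Agent.PC
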